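import Pool.Agent.V1173.UR.Disp

/-!
# The unfolded ordinates do not follow displaced arithmetic progressions

Let `y_n = γ_n log γ_n / 2π` be the unfolded ordinates (so that the normalised gaps are
`δ_n = y_{n+1} - y_n`). For every `θ > 0` and `K` there is `ε > 0` such that for all large `N` the
following holds, unconditionally: if a real sequence `z` is an arithmetic progression up to small
and rare displacements, that is `|z_{n+1} - z_n - b| ≤ ε` for all but at most `ε N` of the `n ≤ N`, then
`|y_n - z_n| ≤ K` for fewer than `θ N` of the `n ≤ N`. Neither the step `b` nor the displacements,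
which may add up to an arbitrarily large amount, are restricted otherwise.

In terms of gaps: `δ_n = b + x_{n+1} - x_n` up to `ε`, with `|x_n| ≤ K` for `θ N` of the indices, is
impossible for all but `ε N` of the `n ≤ N`.

Idea of the proof. By the central limit theorem for the number of ordinates in windows
(unconditional, starting files `Pool.Agent.Y743.CL`, not handed in before) the distances
`y_{n+r} - y_n` have fluctuations of order `sqrt (log r)`; so for a large fixed `r` they lie in an
interval of length `4 K + 2` only for a small proportion of the `n`, uniformly in the interval.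
If `|y_n - z_n| ≤ K` on a set of `θ N` indices, then two of boundedly many translates of the set, by
multiples of a large number, meet in many points, and there such a distance is within `2 K + 1` of a
multiple of `b`.
-/

set_option autoImplicit false

open Filter

namespace Pool.Agent.Results.MP_21f43f_nt.DisplacedProgressions

/-- multiplicity of `s` as a zero of the Riemann zeta function (order of vanishing at `s`) -/
noncomputable def zmult (s : ℂ) : ℕ := analyticOrderNatAt riemannZeta s

/-- the number of nontrivial zeros of `ζ` with ordinate in `(0, t]`, with multiplicity -/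
noncomputable def NZ (t : ℝ) : ℕ :=
  ∑ᶠ s ∈ {s : ℂ | riemannZeta s = 0 ∧ 0 < s.re ∧ s.re < 1 ∧ 0 < s.im ∧ s.im ≤ t}, zmult s

/-- for `n ≥ 1`: the `n`-th positive ordinate `γ n` of a nontrivial zero of `ζ`, the ordinates being
listed in nondecreasing order and repeated according to multiplicity -/
noncomputable def γ (n : ℕ) : ℝ := sInf {t : ℝ | n ≤ NZ t}

/-- the unfolded ordinates `y_n = γ_n log γ_n / 2π` -/
noncomputable def y (n : ℕ) : ℝ := γ n * Real.log (γ n) / (2 * Real.pi)

/-- **Theorem** (unconditional). For all `θ > 0` and `K` there is `ε > 0` such that for all large `N`,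
all real sequences `z` and all real `b`: if `|z_{n+1} - z_n - b| ≤ ε` for all but at most `ε N` of the
`n ≤ N`, then `|y_n - z_n| ≤ K` for fewer than `θ N` of the `n ≤ N`. -/
theorem result (θ K : ℝ) (hθ : 0 < θ) : ∃ ε : ℝ, 0 < ε ∧ ∀ᶠ N : ℕ in atTop,
    ∀ (z : ℕ → ℝ) (b : ℝ),
      ({n : ℕ | 1 ≤ n ∧ n ≤ N ∧ ε < |z (n + 1) - z n - b|}.ncard : ℝ) ≤ ε * N →
      ({n : ℕ | 1 ≤ n ∧ n ≤ N ∧ |y n - z n| ≤ K}.ncard : ℝ) < θ * N := by
  classical
  obtain ⟨ε, hε, h⟩ := Pool.Agent.V1173.UR.disp hθ K
  refine ⟨ε, hε, ?_⟩
  have hc : ∀ (N : ℕ) (p : ℕ → Prop), {n : ℕ | 1 ≤ n ∧ n ≤ N ∧ p n}.ncard =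
      ((Finset.Icc 1 N).filter p).card := by
    intro N p
    rw [← Set.ncard_coe_finset]
    congr 1
    ext n
    simp only [Set.mem_setOf_eq, Finset.coe_filter, Finset.mem_Icc, and_assoc]
  filter_upwards [h] with N hN z b h1
  rw [hc] at h1 ⊢
  have h2 := hN z b (by convert h1)
  convert h2
  rfl

end Pool.Agent.Results.MP_21f43f_nt.DisplacedProgressions
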