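import Mathlib
import Pool.Agent.TH800.DM.Fi
import Pool.Agent.V11270.GS.Blk

set_option autoImplicit false

/-!
# Oscillations of the sequence of the gaps between zeta zeros, on the Riemann hypothesis

Almost every block of `m` consecutive normalised gaps `δ_n, …, δ_{n+m-1}` oscillates `κ m` times
between values below `1 - c` and values above `1 + c`; the exceptional blocks have frequency at most
`C (κ + 1 / log N)`. So a block is a union of at most `k` monotone pieces with frequency at most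
`C (k / m + 1 / log N)`, and it has about `κ m` steps up and steps down of size `c κ`, local maxima
above `1 + c`, and local minima below `1 - c`. In particular all of these have positive frequency.

Proof. The theorem `Pool.Agent.TH800.DM.final` of the starting library (all blocks of length `l`
outside a set of frequency `C (1 / l + 1 / log N)` contain a gap below `1 - c` and a gap above
`1 + c`), applied to the `4 k` blocks of length `m / 4k` of a block of length `m`, a double count,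
and elementary properties of alternating sequences.
-/

open Filter

namespace Pool.Agent.Results.MP_21f43f_nt.Oscillations

/-- multiplicity of `s` as a zero of the Riemann zeta function (order of vanishing at `s`) -/
noncomputable def zmult (s : ℂ) : ℕ := analyticOrderNatAt riemannZeta s

/-- the number of nontrivial zeros of `ζ` with ordinate in `(0, t]`, with multiplicity -/
noncomputable def NZ (t : ℝ) : ℕ :=
  ∑ᶠ s ∈ {s : ℂ | riemannZeta s = 0 ∧ 0 < s.re ∧ s.re < 1 ∧ 0 < s.im ∧ s.im ≤ t}, zmult s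

/-- for `n ≥ 1`: the `n`-th positive ordinate `γ n` of a nontrivial zero of `ζ`, the ordinates being
listed in nondecreasing order and repeated according to multiplicity -/
noncomputable def γ (n : ℕ) : ℝ := sInf {t : ℝ | n ≤ NZ t}

/-- the normalised gaps `δ_n = (γ_{n+1} log γ_{n+1} - γ_n log γ_n) / 2π` -/
noncomputable def δ (n : ℕ) : ℝ :=
  (γ (n + 1) * Real.log (γ (n + 1)) - γ n * Real.log (γ n)) / (2 * Real.pi)

/-- the block `δ_n, …, δ_{n+m-1}` contains `k` gaps below `1 - c` and `k` gaps above `1 + c` which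
alternate: `n ≤ i 0 < j 0 < i 1 < j 1 < … < j (k - 1) < n + m`, `δ (i a) < 1 - c`,
`1 + c < δ (j a)` -/
def alternates (c : ℝ) (k m n : ℕ) : Prop :=
  ∃ i j : Fin k → ℕ,
    (∀ a, n ≤ i a ∧ i a < j a ∧ j a < n + m ∧ δ (i a) < 1 - c ∧ 1 + c < δ (j a)) ∧
    ∀ a b, a < b → j a < i b

/-- the block `δ_n, …, δ_{n+m-1}` is a union of `k` pieces on each of which `δ` is monotone -/
def monotonePieces (k m n : ℕ) : Prop :=
  ∃ b : ℕ → ℕ, b 0 = 0 ∧ b k = m ∧ ∀ q < k,
    MonotoneOn δ (Set.Ico (n + b q) (n + b (q + 1))) ∨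
      AntitoneOn δ (Set.Ico (n + b q) (n + b (q + 1)))

/-- the number of the steps up of size at least `h` in the block `δ_n, …, δ_{n+m-1}` -/
noncomputable def ups (h : ℝ) (m n : ℕ) : ℕ :=
  {p : ℕ | n ≤ p ∧ p + 1 < n + m ∧ h ≤ δ (p + 1) - δ p}.ncard

/-- the number of the steps down of size at least `h` in the block `δ_n, …, δ_{n+m-1}` -/
noncomputable def downs (h : ℝ) (m n : ℕ) : ℕ :=
  {p : ℕ | n ≤ p ∧ p + 1 < n + m ∧ h ≤ δ p - δ (p + 1)}.ncard

/-- `δ p` is a local maximum of the sequence `δ`, and larger than `1 + c` -/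
def localMax (c : ℝ) (p : ℕ) : Prop := 1 + c < δ p ∧ δ (p - 1) ≤ δ p ∧ δ (p + 1) ≤ δ p

/-- `δ p` is a local minimum of the sequence `δ`, and smaller than `1 - c` -/
def localMin (c : ℝ) (p : ℕ) : Prop := δ p < 1 - c ∧ δ p ≤ δ (p - 1) ∧ δ p ≤ δ (p + 1)

/-- the block `δ_n, …, δ_{n+m-1}` oscillates `k` times -/
def oscillates (c : ℝ) (k m n : ℕ) : Prop :=
  alternates c k m n ∧ ¬ monotonePieces k m n ∧
  k ≤ 2 * ups (c * (k / m)) m n ∧ k ≤ 2 * downs (c * (k / m)) m n ∧
  k ≤ {p : ℕ | n < p ∧ p + 1 < n + m ∧ localMax c p}.ncard ∧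
  k ≤ {p : ℕ | n < p ∧ p + 1 < n + m ∧ localMin c p}.ncard

/-- the property `P` holds for a positive proportion of the positive integers -/
def PosProp (P : ℕ → Prop) : Prop :=
  ∃ p : ℝ, 0 < p ∧ ∀ᶠ N : ℕ in atTop, p ≤ (1 / N : ℝ) * ({n : ℕ | 1 ≤ n ∧ n ≤ N ∧ P n}.ncard : ℝ)

open V11270.GS

lemma osc_of {c : ℝ} (hc : 0 < c) {k m n : ℕ} (hk : 1 ≤ k) (hm : 1 ≤ m)
    (h : AltF δ c (k + 1) m n) : oscillates c k m n := by
  refine ⟨altF_mono h, ?_, up_steps hc hk hm h, down_steps hc hk hm h, maxima hc h, minima hc h⟩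
  rintro ⟨b, hb0, hbk, hp⟩
  exact not_pieces (by linarith) h b hb0 hbk hp

lemma icc_filter (N : ℕ) (P : ℕ → Prop) [DecidablePred P] :
    {n : ℕ | 1 ≤ n ∧ n ≤ N ∧ P n}.ncard = ((Finset.Icc 1 N).filter P).card := by
  rw [← Set.ncard_coe_finset]
  congr 1
  ext n
  simp [and_assoc]

lemma blocks (RH : RiemannHypothesis) : ∃ c C : ℝ, 0 < c ∧ 0 < C ∧ ∀ N m k : ℕ, 2 ≤ N → 1 ≤ k →
    1 ≤ m → m ≤ N →
    ({n : ℕ | 1 ≤ n ∧ n ≤ N ∧ ¬ oscillates c k m n}.ncard : ℝ) ≤
      C * (N * (k / m + 1 / Real.log N)) := by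
  classical
  obtain ⟨C, c, hC, hc, -, h⟩ := Pool.Agent.TH800.DM.final RH
  have hbad : ∀ N : ℕ, 2 ≤ N → ∀ l : ℕ, 1 ≤ l →
      ({n : ℕ | 1 ≤ n ∧ n ≤ N ∧ Bad (fun i => δ i < 1 - c) (fun i => 1 + c < δ i) l n}.ncard : ℝ) ≤
        C * (N * (1 / l + 1 / Real.log N)) := by
    intro N hN l hl
    refine le_trans ?_ (h N hN l hl)
    have hsub : {n : ℕ | 1 ≤ n ∧ n ≤ N ∧ Bad (fun i => δ i < 1 - c) (fun i => 1 + c < δ i) l n} ⊆
        {n : ℕ | 1 ≤ n ∧ n ≤ N ∧ (∑ i ∈ Finset.range l, Pool.Agent.TH800.DM.sm c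
          (Pool.Agent.TH800.MS.dlt (n + i)) ≤ c * l ∨
          ∑ i ∈ Finset.range l, Pool.Agent.TH800.DM.lg c
          (Pool.Agent.TH800.MS.dlt (n + i)) ≤ c * l)} := by
      rintro n ⟨h1, h2, h3⟩
      refine ⟨h1, h2, ?_⟩
      have hcl : 0 ≤ c * l := by positivity
      rcases h3 with h3 | h3
      · left
        rw [Finset.sum_eq_zero]
        · exact hcl
        · intro i hi
          rw [Finset.mem_range] at hi
          exact if_neg (h3 (n + i) (by omega) (by omega))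
      · right
        rw [Finset.sum_eq_zero]
        · exact hcl
        · intro i hi
          rw [Finset.mem_range] at hi
          exact if_neg (h3 (n + i) (by omega) (by omega))
    exact_mod_cast Set.ncard_le_ncard hsub ((Set.finite_Icc 1 N).subset fun n hn =>
      ⟨hn.1, hn.2.1⟩)
  refine ⟨c, 2 * (32 * C + 4), hc, by positivity, fun N m k hN hk hm hmN => ?_⟩
  have h1 := alt_count hC hbad hN (k := k + 1) (by omega) hmN hm
  have hsub : {n : ℕ | 1 ≤ n ∧ n ≤ N ∧ ¬ oscillates c k m n} ⊆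
      {n : ℕ | 1 ≤ n ∧ n ≤ N ∧ ¬ Alt (fun i => δ i < 1 - c) (fun i => 1 + c < δ i) (k + 1) m n} := by
    rintro n ⟨g1, g2, g3⟩
    exact ⟨g1, g2, fun g4 => g3 (osc_of hc hk hm g4)⟩
  have h2 : ({n : ℕ | 1 ≤ n ∧ n ≤ N ∧ ¬ oscillates c k m n}.ncard : ℝ) ≤
      ({n : ℕ | 1 ≤ n ∧ n ≤ N ∧ ¬ Alt (fun i => δ i < 1 - c) (fun i => 1 + c < δ i)
        (k + 1) m n}.ncard : ℝ) := by
    exact_mod_cast Set.ncard_le_ncard hsub ((Set.finite_Icc 1 N).subset fun n hn =>
      ⟨hn.1, hn.2.1⟩)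
  refine h2.trans (h1.trans ?_)
  have hNr : (0 : ℝ) < N := by
    have : 0 < N := by omega
    exact_mod_cast this
  have hlog : 0 < Real.log N := Real.log_pos (by
    have : 1 < N := by omega
    exact_mod_cast this)
  have hkr : (1 : ℝ) ≤ k := by exact_mod_cast hk
  have hmr : (0 : ℝ) < m := by exact_mod_cast hm
  have h3 : ((k + 1 : ℕ) : ℝ) / m + 1 / Real.log N ≤ 2 * (k / m + 1 / Real.log N) := by
    have h4 : ((k + 1 : ℕ) : ℝ) / m ≤ 2 * (k / m) := by
      push_cast
      rw [mul_div_assoc', div_le_div_iff_of_pos_right hmr]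
      linarith
    have h5 : 0 < 1 / Real.log N := by positivity
    linarith
  calc (32 * C + 4) * (N * (((k + 1 : ℕ) : ℝ) / m + 1 / Real.log N))
      ≤ (32 * C + 4) * (N * (2 * (k / m + 1 / Real.log N))) := by
        apply mul_le_mul_of_nonneg_left _ (by positivity)
        exact mul_le_mul_of_nonneg_left h3 hNr.le
    _ = 2 * (32 * C + 4) * (N * (k / m + 1 / Real.log N)) := by ring

lemma pos_of_blocks {P : ℕ → Prop} {m : ℕ} (hm : 1 ≤ m) (Q : ℕ → Prop)
    (hQ : ∀ n, Q n → ∃ p, n ≤ p ∧ p < n + m ∧ P p)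
    (h : ∀ᶠ N : ℕ in atTop, (N : ℝ) / 2 ≤ ({n : ℕ | 1 ≤ n ∧ n ≤ N ∧ Q n}.ncard : ℝ)) :
    PosProp P := by
  classical
  have hmr : (0 : ℝ) < m := by exact_mod_cast hm
  refine ⟨1 / (4 * m), by positivity, ?_⟩
  obtain ⟨N0, hN0⟩ := eventually_atTop.1 h
  filter_upwards [eventually_ge_atTop (N0 + 2 * m)] with N hN
  have h1 := hN0 (N - m) (by omega)
  have hNr : (0 : ℝ) < N := by
    have : 0 < N := by omega
    exact_mod_cast this
  rw [icc_filter] at h1 ⊢
  have h2 : ((Finset.Icc 1 (N - m)).filter Q).card ≤ m * ((Finset.Icc 1 N).filter P).card := by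
    choose! p hp using hQ
    apply Finset.card_le_mul_card_image_of_maps_to (f := p)
    · intro n hn
      rw [Finset.mem_filter, Finset.mem_Icc] at hn ⊢
      obtain ⟨g1, g2, g3⟩ := hp n hn.2
      exact ⟨⟨by omega, by omega⟩, g3⟩
    · intro b _
      calc (((Finset.Icc 1 (N - m)).filter Q).filter (fun x => p x = b)).card
          ≤ (Finset.Ioc (b - m) b).card := by
            apply Finset.card_le_card
            intro n hn
            rw [Finset.mem_filter, Finset.mem_filter, Finset.mem_Icc] at hn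
            obtain ⟨⟨g0, g1⟩, g2⟩ := hn
            obtain ⟨e1, e2, -⟩ := hp n g1
            rw [Finset.mem_Ioc]
            omega
        _ ≤ m := by
            rw [Nat.card_Ioc]
            omega
  have h3 : (((Finset.Icc 1 (N - m)).filter Q).card : ℝ) ≤
      m * (((Finset.Icc 1 N).filter P).card : ℝ) := by exact_mod_cast h2
  have h4 : (N : ℝ) / 2 ≤ ((N - m : ℕ) : ℝ) := by
    rw [Nat.cast_sub (by omega)]
    have : (2 * m : ℝ) ≤ N := by
      have : 2 * m ≤ N := by omega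
      exact_mod_cast this
    linarith
  rw [one_div, one_div, inv_mul_eq_div, le_div_iff₀ hNr, inv_mul_le_iff₀ (by positivity)]
  linarith

/-- **Oscillations of the gap sequence.** -/
theorem result (RH : RiemannHypothesis) : ∃ c C : ℝ, 0 < c ∧ 0 < C ∧
    (∀ N m k : ℕ, 2 ≤ N → 1 ≤ k → 1 ≤ m → m ≤ N →
      ({n : ℕ | 1 ≤ n ∧ n ≤ N ∧ ¬ oscillates c k m n}.ncard : ℝ) ≤
        C * (N * (k / m + 1 / Real.log N))) ∧
    ∃ h : ℝ, 0 < h ∧
      PosProp (fun n => h ≤ δ (n + 1) - δ n) ∧ PosProp (fun n => h ≤ δ n - δ (n + 1)) ∧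
      PosProp (localMax c) ∧ PosProp (localMin c) := by
  classical
  obtain ⟨c, C, hc, hC, h⟩ := blocks RH
  refine ⟨c, C, hc, hC, h, ?_⟩
  obtain ⟨m, hm⟩ := exists_nat_ge (4 * C + 1)
  have hm1 : 1 ≤ m := by
    have : (1 : ℝ) ≤ m := by linarith
    exact_mod_cast this
  have hmr : (0 : ℝ) < m := by exact_mod_cast hm1
  have hev : ∀ᶠ N : ℕ in atTop, (N : ℝ) / 2 ≤
      ({n : ℕ | 1 ≤ n ∧ n ≤ N ∧ oscillates c 1 m n}.ncard : ℝ) := by
    have h1 : Tendsto (fun N : ℕ => Real.log N) atTop atTop :=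
      Real.tendsto_log_atTop.comp tendsto_natCast_atTop_atTop
    filter_upwards [h1.eventually_ge_atTop (4 * C), eventually_ge_atTop (m + 2)] with N h2 h3
    have h4 := h N m 1 (by omega) le_rfl hm1 (by omega)
    have hNr : (0 : ℝ) < N := by
      have : 0 < N := by omega
      exact_mod_cast this
    have h5 := Finset.card_filter_add_card_filter_not (s := Finset.Icc 1 N)
      (fun n => oscillates c 1 m n)
    rw [Nat.card_Icc, Nat.add_sub_cancel] at h5
    rw [icc_filter] at h4 ⊢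
    have h6 : (((Finset.Icc 1 N).filter (fun n => oscillates c 1 m n)).card : ℝ) +
        (((Finset.Icc 1 N).filter (fun n => ¬ oscillates c 1 m n)).card : ℝ) = N := by
      exact_mod_cast h5
    have h7 : C * (N * (((1 : ℕ) : ℝ) / m + 1 / Real.log N)) ≤ N / 2 := by
      have hl : 0 < Real.log N := by linarith
      have e1 : C * (1 / (m : ℝ)) ≤ 1 / 4 := by
        rw [mul_one_div, div_le_div_iff₀ hmr (by norm_num)]
        linarith
      have e2 : C * (1 / Real.log N) ≤ 1 / 4 := by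
        rw [mul_one_div, div_le_div_iff₀ hl (by norm_num)]
        linarith
      rw [Nat.cast_one]
      calc C * (N * (1 / (m : ℝ) + 1 / Real.log N))
          = N * (C * (1 / (m : ℝ)) + C * (1 / Real.log N)) := by ring
        _ ≤ N * (1 / 4 + 1 / 4) := by
            apply mul_le_mul_of_nonneg_left _ hNr.le
            linarith
        _ = N / 2 := by ring
    linarith
  have hne : ∀ S : Set ℕ, 1 ≤ S.ncard → S.Nonempty := fun S hS =>
    Set.nonempty_of_ncard_ne_zero (by omega)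
  refine ⟨c * (((1 : ℕ) : ℝ) / m), by positivity, ?_, ?_, ?_, ?_⟩
  · refine pos_of_blocks hm1 _ (fun n hn => ?_) hev
    obtain ⟨-, -, h1, -⟩ := hn
    obtain ⟨p, h2, h3, h4⟩ := hne _ (show 1 ≤ ups (c * (((1 : ℕ) : ℝ) / m)) m n by omega)
    exact ⟨p, h2, by omega, h4⟩
  · refine pos_of_blocks hm1 _ (fun n hn => ?_) hev
    obtain ⟨-, -, -, h1, -⟩ := hn
    obtain ⟨p, h2, h3, h4⟩ := hne _ (show 1 ≤ downs (c * (((1 : ℕ) : ℝ) / m)) m n by omega)
    exact ⟨p, h2, by omega, h4⟩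
  · refine pos_of_blocks hm1 _ (fun n hn => ?_) hev
    obtain ⟨-, -, -, -, h1, -⟩ := hn
    obtain ⟨p, h2, h3, h4⟩ := hne _ h1
    exact ⟨p, h2.le, by omega, h4⟩
  · refine pos_of_blocks hm1 _ (fun n hn => ?_) hev
    obtain ⟨-, -, -, -, -, h1⟩ := hn
    obtain ⟨p, h2, h3, h4⟩ := hne _ h1
    exact ⟨p, h2.le, by omega, h4⟩

end Pool.Agent.Results.MP_21f43f_nt.Oscillations
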