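import Pool.Agent.V1161.ZD.Dense

set_option autoImplicit false

/-!
# Dense sets of zeros, and gaps of prescribed sizes, at polynomial distances

No hypothesis is assumed.  For all `d`, `κ > 0`, `ε > 0` there are `M` and `θ > 0` such that for all large `T`,
for EVERY set `E` of real numbers and every real polynomial `b(x) = b_1 x + … + b_d x^d` with `|b_r| ≤ θ T` there is
an integer `1 ≤ m ≤ M` with the following property: if the proportion of the gaps with normalised size in `E` is at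
least `p`, then there are at least `(κ p² - ε) (T / 2π) log T` pairs of gaps, both of size in `E`, at distance
`b(m)` up to `κ` mean spacings.  The same for arbitrary weights on the zeros instead of gaps.

Proof.  Second moments of the number of zeros in windows of the length of the mean spacing
(`Pool.Agent.Y750.OM.cntmom` of the starting library), and a finitely supported probability measure on the positive
integers whose polynomial Fourier transform is nowhere less than `-ε` (`V1161.VC`).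
-/

open Filter Topology MeasureTheory

namespace Pool.Agent.Results.MP_21f43f_nt.PairsOfPrescribedGaps

/-- `g` is the ordinate of a nontrivial zero of zeta -/
def IsOrdinate (g : ℝ) : Prop := ∃ s : ℂ, riemannZeta s = 0 ∧ 0 < s.re ∧ s.re < 1 ∧ s.im = g

/-- the ordinates in `(0, T]` -/
def ordinates (T : ℝ) : Set ℝ := {g : ℝ | (0 < g ∧ g ≤ T) ∧ IsOrdinate g}

/-- the number of nontrivial zeros with ordinate `g`, with multiplicity -/
noncomputable def ordMult (g : ℝ) : ℝ :=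
  ∑ᶠ s ∈ {s : ℂ | riemannZeta s = 0 ∧ 0 < s.re ∧ s.re < 1 ∧ s.im = g}, (analyticOrderNatAt riemannZeta s : ℝ)

/-- the next ordinate -/
noncomputable def next (g : ℝ) : ℝ := sInf {g' : ℝ | g < g' ∧ IsOrdinate g'}

/-- the normalised gap `γ' log γ' / 2π - γ log γ / 2π` between the ordinate `γ = g` and the next one -/
noncomputable def gap (g : ℝ) : ℝ := (next g * Real.log (next g) - g * Real.log g) / (2 * Real.pi)

/-- the asymptotic number `(T / 2π) log T` of the zeros with ordinate in `(0, T]` -/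
noncomputable def N₀ (T : ℝ) : ℝ := T / (2 * Real.pi) * Real.log T

/-- the value at `m` of the real polynomial without constant term with coefficients `β` -/
noncomputable def poly {d : ℕ} (β : Fin d → ℝ) (m : ℕ) : ℝ := ∑ r, β r * (m : ℝ) ^ ((r : ℕ) + 1)

/-- the sum of `w(γ)` over the ordinates in `(0, T]` -/
noncomputable def total (T : ℝ) (w : ℝ → ℝ) : ℝ := ∑ᶠ g ∈ ordinates T, w g

/-- the pairs of ordinates in `(0, T]` with difference close to `s`: the sum of
`w(γ) w(γ') (1 - |γ' - γ - s| / (κ 2π / log T))_+` -/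
noncomputable def pairs (T κ s : ℝ) (w : ℝ → ℝ) : ℝ :=
  ∑ᶠ p ∈ ordinates T ×ˢ ordinates T,
    w p.1 * w p.2 * max 0 (1 - |p.2 - p.1 - s| / (κ * (2 * Real.pi / Real.log T)))

/-- the ordinates in `(0, T]` whose normalised gap to the next ordinate is in `E` -/
def gapsIn (T : ℝ) (E : Set ℝ) : Set ℝ := {g : ℝ | g ∈ ordinates T ∧ gap g ∈ E}

/-- the pairs of elements of `G` whose difference is `s`, up to less than `κ` mean spacings -/
def near (T κ s : ℝ) (G : Set ℝ) : Set (ℝ × ℝ) :=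
  {p : ℝ × ℝ | p.1 ∈ G ∧ p.2 ∈ G ∧ |p.2 - p.1 - s| < κ * (2 * Real.pi / Real.log T)}

open V1161.ZD V11270.KC

lemma ordinates_eq (T : ℝ) : ordinates T = (ords T : Set ℝ) := by
  ext g
  rw [Finset.mem_coe, mem_ords]
  rfl

/-- the set of the ordinates in `(0, T]` is finite -/
theorem ordinates_finite (T : ℝ) : (ordinates T).Finite := by
  rw [ordinates_eq]
  exact Finset.finite_toSet _

lemma ordMult_eq {T g : ℝ} (hg : g ∈ ords T) : ordMult g = om T g := by
  classical
  unfold ordMult om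
  obtain ⟨⟨h1, h2⟩, -⟩ := mem_ords.1 hg
  have h : {s : ℂ | riemannZeta s = 0 ∧ 0 < s.re ∧ s.re < 1 ∧ s.im = g} =
      (((Z0 T).filter (fun s => s.im = g) : Finset ℂ) : Set ℂ) := by
    ext s
    rw [Finset.coe_filter, Set.mem_ofPred_eq, Set.mem_ofPred_eq, mem_Z0]
    constructor
    · rintro ⟨a1, a2, a3, a4⟩
      exact ⟨⟨a2, a3, by rw [a4]; exact h1, by rw [a4]; exact h2, a1⟩, a4⟩
    · rintro ⟨⟨a1, a2, a3, a4, a5⟩, a6⟩
      exact ⟨a5, a1, a2, a6⟩
  rw [h, finsum_mem_coe_finset]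
  rfl

lemma total_eq (T : ℝ) (w : ℝ → ℝ) : total T w = ∑ g ∈ ords T, w g := by
  unfold total
  rw [ordinates_eq, finsum_mem_coe_finset]

lemma pairs_eq (T κ s : ℝ) (w : ℝ → ℝ) : pairs T κ s w = ∑ g ∈ ords T, ∑ g' ∈ ords T, w g * w g' *
    max 0 (1 - |g' - g - s| / (κ * (2 * Real.pi / Real.log T))) := by
  unfold pairs
  rw [ordinates_eq, ← Finset.coe_product, finsum_mem_coe_finset, Finset.sum_product]

lemma ordMult_pos {T g : ℝ} (hg : g ∈ ords T) : 1 ≤ ordMult g := by
  rw [ordMult_eq hg]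
  obtain ⟨⟨a1, a2⟩, s, a3, a4, a5, a6⟩ := mem_ords.1 hg
  have h2 : s ∈ (Z0 T).filter (fun s => s.im = g) := by
    rw [Finset.mem_filter, mem_Z0]
    exact ⟨⟨a4, a5, by rw [a6]; exact a1, by rw [a6]; exact a2, a3⟩, a6⟩
  have h3 : (1 : ℝ) ≤ H370.mult riemannZeta s := by
    have := H370.Loc.mult_pos' H370.good_zeta (s := s) (by rw [a6]; exact a1) a3
    exact_mod_cast this
  refine h3.trans ?_
  exact Finset.single_le_sum (f := fun s => (H370.mult riemannZeta s : ℝ))
    (fun s _ => Nat.cast_nonneg _) h2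

/-- weighted sets of zeros -/
lemma weights (d : ℕ) (κ ε : ℝ) (hκ : 0 < κ) (hε : 0 < ε) :
    ∃ (M : ℕ) (θ T₀ : ℝ), 1 ≤ M ∧ 0 < θ ∧ 10 ≤ T₀ ∧ ∀ T : ℝ, T₀ ≤ T →
      ∀ w : ℝ → ℝ, (∀ g ∈ ordinates T, 0 ≤ w g ∧ w g ≤ ordMult g) →
      ∀ β : Fin d → ℝ, (∀ r, |β r| ≤ θ * T) → ∃ m : ℕ, 1 ≤ m ∧ m ≤ M ∧
        κ * total T w ^ 2 / N₀ T - ε * N₀ T ≤ pairs T κ (poly β m) w := by
  classical
  obtain ⟨M, θ, T₀, hM, hθ, hT₀, h⟩ := pairs_main d κ hκ ε hε
  refine ⟨M, θ, T₀, hM, hθ, hT₀, fun T hT w hw β hβ => ?_⟩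
  obtain ⟨w', hw'⟩ : ∃ w' : ℝ → ℝ, w' = fun g => if g ∈ ords T then w g else 0 := ⟨_, rfl⟩
  have hin : ∀ g ∈ ords T, w' g = w g := fun g hg => by rw [hw']; simp only; rw [if_pos hg]
  obtain ⟨m, hm1, hm2, hm⟩ := h T hT w' (fun g => by
    by_cases hg : g ∈ ords T
    · rw [hin g hg, ← ordMult_eq hg]
      exact hw g (by rw [ordinates_eq]; exact hg)
    · have h1 : w' g = 0 := by rw [hw']; simp only; rw [if_neg hg]
      rw [h1]
      exact ⟨le_rfl, Finset.sum_nonneg fun s _ => Nat.cast_nonneg _⟩) β hβ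
  refine ⟨m, hm1, hm2, ?_⟩
  have e1 : ∑ g ∈ ords T, w' g = total T w := by
    rw [total_eq]
    exact Finset.sum_congr rfl hin
  have e2 : ∑ g ∈ ords T, ∑ g' ∈ ords T, w' g * w' g' *
      max 0 (1 - |g' - g - ∑ r, β r * (m : ℝ) ^ ((r : ℕ) + 1)| / (κ * (2 * Real.pi / Real.log T))) =
      pairs T κ (poly β m) w := by
    rw [pairs_eq]
    refine Finset.sum_congr rfl fun g hg => Finset.sum_congr rfl fun g' hg' => ?_
    rw [hin g hg, hin g' hg']
    rfl
  rw [e1, e2] at hm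
  exact hm

/-- **Gaps of prescribed sizes at polynomial distances.** -/
theorem result :
    -- weighted sets of zeros
    (∀ (d : ℕ) (κ ε : ℝ), 0 < κ → 0 < ε → ∃ (M : ℕ) (θ T₀ : ℝ), 1 ≤ M ∧ 0 < θ ∧ 10 ≤ T₀ ∧
      ∀ T : ℝ, T₀ ≤ T → ∀ w : ℝ → ℝ, (∀ g ∈ ordinates T, 0 ≤ w g ∧ w g ≤ ordMult g) →
      ∀ β : Fin d → ℝ, (∀ r, |β r| ≤ θ * T) → ∃ m : ℕ, 1 ≤ m ∧ m ≤ M ∧
        κ * total T w ^ 2 / N₀ T - ε * N₀ T ≤ pairs T κ (poly β m) w) ∧
    -- gaps of prescribed sizes
    (∀ (d : ℕ) (κ ε : ℝ), 0 < κ → 0 < ε → ∃ (M : ℕ) (θ T₀ : ℝ), 1 ≤ M ∧ 0 < θ ∧ 10 ≤ T₀ ∧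
      ∀ T : ℝ, T₀ ≤ T → ∀ (E : Set ℝ) (p : ℝ), 0 ≤ p → p * N₀ T ≤ (gapsIn T E).ncard →
      ∀ β : Fin d → ℝ, (∀ r, |β r| ≤ θ * T) → ∃ m : ℕ, 1 ≤ m ∧ m ≤ M ∧
        (κ * p ^ 2 - ε) * N₀ T ≤ (near T κ (poly β m) (gapsIn T E)).ncard) ∧
    -- all sets that are counted are finite
    (∀ T : ℝ, (ordinates T).Finite) := by
  classical
  refine ⟨weights, fun d κ ε hκ hε => ?_, ordinates_finite⟩
  obtain ⟨M, θ, T₀, hM, hθ, hT₀, h⟩ := weights d κ ε hκ hε
  refine ⟨M, θ, T₀, hM, hθ, hT₀, fun T hT E p hp0 hp β hβ => ?_⟩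
  have hpi := Real.pi_pos
  have hTp : 0 < T := by linarith
  have hL0 : 0 < Real.log T := Real.log_pos (by linarith)
  have hN0 : 0 < N₀ T := by unfold N₀; positivity
  obtain ⟨G, hG⟩ : ∃ G : Finset ℝ, G = (ords T).filter (fun g => gap g ∈ E) := ⟨_, rfl⟩
  have hGset : gapsIn T E = (G : Set ℝ) := by
    ext g
    unfold gapsIn
    rw [hG, Finset.coe_filter, ordinates_eq]
    rfl
  rw [hGset, Set.ncard_coe_finset] at hp
  obtain ⟨w, hw⟩ : ∃ w : ℝ → ℝ, w = fun g => if g ∈ G then 1 else 0 := ⟨_, rfl⟩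
  obtain ⟨m, hm1, hm2, hm⟩ := h T hT w (fun g hg => by
    rw [ordinates_eq] at hg
    have h1 := ordMult_pos (T := T) (g := g) hg
    rw [hw]
    simp only
    split_ifs
    · exact ⟨zero_le_one, h1⟩
    · exact ⟨le_rfl, by linarith⟩) β hβ
  refine ⟨m, hm1, hm2, ?_⟩
  have hGs : G ⊆ ords T := by rw [hG]; exact Finset.filter_subset _ _
  have e1 : total T w = G.card := by
    rw [total_eq, hw, Finset.sum_ite_mem, Finset.inter_eq_right.2 hGs, Finset.sum_const, nsmul_eq_mul,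
      mul_one]
  rw [e1] at hm
  -- the pairs
  have h2 : pairs T κ (poly β m) w ≤ (near T κ (poly β m) (gapsIn T E)).ncard := by
    rw [pairs_eq, hGset]
    have h3 : near T κ (poly β m) (G : Set ℝ) = (((G ×ˢ G).filter fun q =>
        |q.2 - q.1 - poly β m| < κ * (2 * Real.pi / Real.log T) : Finset (ℝ × ℝ)) : Set (ℝ × ℝ)) := by
      ext q
      unfold near
      rw [Finset.coe_filter, Set.mem_ofPred_eq, Set.mem_ofPred_eq, Finset.mem_product, Finset.mem_coe,
        Finset.mem_coe, and_assoc]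
    rw [h3, Set.ncard_coe_finset, Finset.card_filter]
    push_cast
    rw [Finset.sum_product]
    have h4 : ∀ g ∈ ords T, ∀ g' ∈ ords T, w g * w g' *
        max 0 (1 - |g' - g - poly β m| / (κ * (2 * Real.pi / Real.log T))) ≤
        (if g ∈ G then (if g' ∈ G then (if |g' - g - poly β m| < κ * (2 * Real.pi / Real.log T)
          then (1 : ℝ) else 0) else 0) else 0) := by
      intro g _ g' _
      rw [hw]
      simp only
      by_cases hg : g ∈ G
      · by_cases hg' : g' ∈ G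
        · rw [if_pos hg, if_pos hg', if_pos hg, if_pos hg', one_mul, one_mul]
          have hc : 0 < κ * (2 * Real.pi / Real.log T) := by positivity
          split_ifs with h5
          · apply max_le zero_le_one
            have : 0 ≤ |g' - g - poly β m| / (κ * (2 * Real.pi / Real.log T)) := by positivity
            linarith
          · apply max_le le_rfl
            push Not at h5
            have : 1 ≤ |g' - g - poly β m| / (κ * (2 * Real.pi / Real.log T)) := by
              rw [le_div_iff₀ hc]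
              linarith
            linarith
        · rw [if_neg hg', mul_zero, zero_mul, if_pos hg, if_neg hg']
      · rw [if_neg hg, zero_mul, zero_mul, if_neg hg]
    refine (Finset.sum_le_sum fun g hg => Finset.sum_le_sum fun g' hg' => h4 g hg g' hg').trans ?_
    have h5 : ∀ g ∈ ords T, ∑ g' ∈ ords T, (if g ∈ G then (if g' ∈ G then
        (if |g' - g - poly β m| < κ * (2 * Real.pi / Real.log T) then (1 : ℝ) else 0) else 0) else 0) =
        if g ∈ G then ∑ g' ∈ G, (if |g' - g - poly β m| < κ * (2 * Real.pi / Real.log T)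
          then (1 : ℝ) else 0) else 0 := by
      intro g _
      split_ifs with h6
      · rw [Finset.sum_ite_mem, Finset.inter_eq_right.2 hGs]
      · simp
    rw [Finset.sum_congr rfl h5, Finset.sum_ite_mem, Finset.inter_eq_right.2 hGs]
  refine le_trans ?_ (hm.trans h2)
  have h6 : (p * N₀ T) ^ 2 ≤ (G.card : ℝ) ^ 2 := pow_le_pow_left₀ (by positivity) hp 2
  have h7 : κ * p ^ 2 * N₀ T ≤ κ * (G.card : ℝ) ^ 2 / N₀ T := by
    rw [le_div_iff₀ hN0]
    have := mul_le_mul_of_nonneg_left h6 hκ.le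
    refine le_trans (le_of_eq ?_) this
    ring
  have h8 : (κ * p ^ 2 - ε) * N₀ T = κ * p ^ 2 * N₀ T - ε * N₀ T := by ring
  rw [h8]
  linarith

end Pool.Agent.Results.MP_21f43f_nt.PairsOfPrescribedGaps
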