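import Pool.Agent.Results.MP_21f43f_nt.SmallGapsAlmostAll
import Pool.Agent.V11001.SI.Gaps

/-!
# Small gaps between the zeros of zeta in every short interval near the powers of almost every real number

Assume the Riemann hypothesis, let `0 < η < 1` and `ν n / log n → ∞`, for example `ν n = n`. There are `c, κ > 0` and `s < 1`
such that for each `x > 1` outside a set of Hausdorff dimension at most `s` and all large `n`, `T = x ^ (ν n)`, EVERY
interval `(a, b]` of length at least `T ^ η` in `[T - T ^ (η + κ), T + T ^ (η + κ)]` contains at least `c (b - a) log T`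
ordinates `γ_n` with a normalised gap `δ_n < 0.83`. The same holds for `δ_n < B`, `0 < B ≤ 1`, if `G(B, (1 + η') / 2) > 1` for
some `0 < η' < η`.
-/

set_option autoImplicit false

open MeasureTheory

namespace Pool.Agent.Results.MP_21f43f_nt.SmallGapsNearPowers

open Pool.Agent.V11001.KM Pool.Agent.V11001.SI
open SmallGapsAlmostAll (γ δ G)

/-- every interval `(a, b]` of length at least `T ^ η` in `[T - T ^ (η + κ), T + T ^ (η + κ)]` contains at least
`c (b - a) log T` ordinates `γ_n` with `Q n` -/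
def Every (Q : ℕ → Prop) (c η κ T : ℝ) : Prop :=
  ∀ a b : ℝ, T - T ^ (η + κ) ≤ a → b ≤ T + T ^ (η + κ) → T ^ η ≤ b - a →
    c * ((b - a) * Real.log T) ≤ ({n : ℕ | 1 ≤ n ∧ a < γ n ∧ γ n ≤ b ∧ Q n}.ncard : ℝ)

/-- for all `x > 1` outside a set of dimension less than one, `Every` holds at all large powers `T = β x ^ (ν n)` -/
def NearPowers (Q : ℕ → Prop) (η : ℝ) : Prop :=
  ∃ c κ s : ℝ, 0 < c ∧ 0 < κ ∧ s < 1 ∧ ∀ ν : ℕ → ℝ, Fast ν → ∀ U : Set ℝ, U.Countable →
    ∃ E : Set ℝ, dimH E ≤ ENNReal.ofReal s ∧ ∀ x : ℝ, 1 < x → x ∉ E → ∀ β ∈ U, 0 < β →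
      ∃ n₀ : ℕ, ∀ n : ℕ, n₀ ≤ n → Every Q c η κ (β * x ^ ν n)

/-- **Theorem.** On the Riemann hypothesis: for `0 < η' < η < 1` and `0 < B ≤ 1` with `G(B, (1 + η') / 2) > 1` there are
`c, κ > 0` and `s < 1` such that for all `ν` with `ν n / log n → ∞` and all countable sets `U` there is a set `E` of
dimension at most `s` such that for `x > 1` outside `E`, `0 < β ∈ U` and all large `n`, `T = β x ^ (ν n)`, every interval
`(a, b]` of length at least `T ^ η` in `[T - T ^ (η + κ), T + T ^ (η + κ)]` contains at least `c (b - a) log T` ordinates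
`γ_n` with `δ_n < B`; and this holds for `B = 0.83` and every `0 < η < 1`. -/
theorem result (RH : RiemannHypothesis) :
    (∀ η' η B : ℝ, 0 < η' → η' < η → η < 1 → 0 < B → B ≤ 1 → 1 < G B ((1 + η') / 2) →
      NearPowers (fun n => δ n < B) η) ∧
    (∀ η : ℝ, 0 < η → η < 1 → NearPowers (fun n => δ n < 83 / 100) η) := by
  obtain ⟨h1, h2, -⟩ := SmallGapsAlmostAll.result RH
  have part1 : ∀ η' η B : ℝ, 0 < η' → η' < η → η < 1 → 0 < B → B ≤ 1 → 1 < G B ((1 + η') / 2) →
      NearPowers (fun n => δ n < B) η := by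
    intro η' η B e1 e2 e3 e4 e5 e6
    obtain ⟨c, κ, hc, hκ, T₀, hT⟩ := h1 η' B e1 (by linarith) e4 e5 e6
    obtain ⟨s, κ', -, hs1, hκ', -, h⟩ := gaps (fun n => δ n < B) hc e1 e2 e3 hκ hT
    refine ⟨c / 4, κ', s, by positivity, hκ', hs1, fun ν hν U hU => ?_⟩
    obtain ⟨E, hE1, hE2⟩ := h ν hν U hU
    refine ⟨E, hE1, fun x hx hxE β hβ hβ0 => ?_⟩
    obtain ⟨n₀, hn₀⟩ := hE2 x hx hxE β hβ hβ0
    exact ⟨n₀, fun n hn a b ha hb hab => hn₀ n hn a b ha hb hab⟩
  exact ⟨part1, fun η e1 e2 => part1 (η / 2) η (83 / 100) (by positivity) (by linarith) e2 (by norm_num) (by norm_num)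
    (h2 (η / 2) (by positivity) (by linarith))⟩

end Pool.Agent.Results.MP_21f43f_nt.SmallGapsNearPowers
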